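import Mathlib
import Pool.Agent.W546.ST.Defs
import Pool.Agent.Helper82.OS.cNval

set_option autoImplicit false
open Matrix MeasureTheory Set Metric Filter Topology
open scoped ENNReal Nat

namespace Pool.Agent.W356.ST
open Pool.Agent.Helper82.OS Pool.Agent.W546.ST

/-- polar coordinates in the plane for iterated integrals -/
theorem polar2 (Φ : ℝ → ℝ → ℝ≥0∞) (hΦ : Measurable (Function.uncurry Φ)) :
    ∫⁻ y : ℝ, ∫⁻ t : ℝ, Φ y t =
      ∫⁻ a in Ioo (-Real.pi) Real.pi, ∫⁻ r in Ioi (0 : ℝ),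
        ENNReal.ofReal r * Φ (r * Real.cos a) (r * Real.sin a) := by
  have h1 : ∫⁻ y : ℝ, ∫⁻ t : ℝ, Φ y t = ∫⁻ p : ℝ × ℝ, Function.uncurry Φ p :=
    (lintegral_prod _ hΦ.aemeasurable).symm
  rw [h1, ← lintegral_comp_polarCoord_symm]
  have h2 : polarCoord.target = Ioi (0 : ℝ) ×ˢ Ioo (-Real.pi) Real.pi := rfl
  rw [h2]
  have h3 : (volume : Measure (ℝ × ℝ)).restrict (Ioi (0 : ℝ) ×ˢ Ioo (-Real.pi) Real.pi) =
      (volume.restrict (Ioi (0 : ℝ))).prod (volume.restrict (Ioo (-Real.pi) Real.pi)) := by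
    rw [Measure.prod_restrict]; rfl
  rw [h3, lintegral_prod_symm]
  · refine lintegral_congr fun a => lintegral_congr fun r => ?_
    simp [polarCoord_symm_apply]
  · refine Measurable.aemeasurable ?_
    have hm : Measurable (fun p : ℝ × ℝ => (p.1 * Real.cos p.2, p.1 * Real.sin p.2)) := by fun_prop
    have h4 : (fun p : ℝ × ℝ => ENNReal.ofReal p.1 • Function.uncurry Φ (polarCoord.symm p)) =
        fun p : ℝ × ℝ => ENNReal.ofReal p.1 * Function.uncurry Φ (p.1 * Real.cos p.2, p.1 * Real.sin p.2) := by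
      funext p
      simp [polarCoord_symm_apply]
    rw [h4]
    exact (by fun_prop : Measurable fun p : ℝ × ℝ => ENNReal.ofReal p.1).mul (hΦ.comp hm)

/-- the radial integrals -/
noncomputable def R (m : ℕ) : ℝ := 2 ^ (((m : ℝ) - 1) / 2) * Real.Gamma (((m : ℝ) + 1) / 2)

theorem R_pos (m : ℕ) : 0 < R m := by
  unfold R
  have : 0 < Real.Gamma (((m : ℝ) + 1) / 2) := Real.Gamma_pos_of_pos (by positivity)
  positivity

theorem R_succ (m : ℕ) : R (m + 2) = (m + 1) * R m := by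
  unfold R
  have h1 : (((m + 2 : ℕ) : ℝ) + 1) / 2 = ((m : ℝ) + 1) / 2 + 1 := by push_cast; ring
  have h2 : (((m + 2 : ℕ) : ℝ) - 1) / 2 = ((m : ℝ) - 1) / 2 + 1 := by push_cast; ring
  rw [h1, h2, Real.Gamma_add_one (by positivity), Real.rpow_add (by norm_num), Real.rpow_one]
  ring

theorem rad (m : ℕ) : ∫⁻ r in Ioi (0 : ℝ), ENNReal.ofReal (r ^ m * gt r) = ENNReal.ofReal (R m) := by
  rw [R, ← cNval_Im_cNvalx m]
  refine setLIntegral_congr_fun measurableSet_Ioi fun r hr => ?_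
  have hr' : (0 : ℝ) < r := hr
  rw [← ENNReal.ofReal_mul (Real.exp_nonneg _)]
  congr 1
  rw [gt, mul_comm]
  congr 2
  ring

theorem R_even (k : ℕ) : R (2 * k) = Real.sqrt (Real.pi / 2) * ((2 * k - 1)‼ : ℕ) := by
  induction k with
  | zero =>
    unfold R
    simp only [mul_zero, Nat.cast_zero, zero_sub, zero_add, Nat.zero_sub]
    rw [Real.Gamma_one_half_eq, Real.sqrt_div' _ (by norm_num), neg_div, Real.rpow_neg (by norm_num),
      ← Real.sqrt_eq_rpow]
    simp
    ring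
  | succ k ih =>
    have h1 : 2 * (k + 1) = 2 * k + 2 := by ring
    rw [h1, R_succ, ih]
    cases k with
    | zero => simp
    | succ j =>
      have e1 : 2 * (j + 1) + 2 - 1 = (2 * (j + 1) - 1) + 2 := by omega
      rw [e1, Nat.doubleFactorial_add_two]
      have e2 : 2 * (j + 1) - 1 + 2 = 2 * j + 3 := by omega
      rw [e2]
      push_cast
      ring

/-- `n` odd: the radial integral of `r^(n+1)` -/
theorem R_odd_succ (n : ℕ) (hn : Odd n) : R (n + 1) = Real.sqrt (Real.pi / 2) * (n‼ : ℕ) := by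
  obtain ⟨k, rfl⟩ := hn
  have := R_even (k + 1)
  have e1 : 2 * (k + 1) = 2 * k + 1 + 1 := by ring
  rw [e1] at this
  rw [this]
  rfl

/-- total mass of the Gaussian -/
theorem gauss_total (k : ℕ) :
    ∫⁻ f : E k, ENNReal.ofReal (gw f) = ENNReal.ofReal ((2 * Real.pi) ^ ((k : ℝ) / 2)) := by
  have h1 : ∫ y : E k, gw y = (2 * Real.pi) ^ ((k : ℝ) / 2) := by
    have h2 := GaussianFourier.integral_rexp_neg_mul_sq_norm (V := E k) (b := 1 / 2) (by norm_num)
    rw [finrank_euclideanSpace, Fintype.card_fin] at h2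
    have e : Real.pi / (1 / 2) = 2 * Real.pi := by ring
    rw [e] at h2
    rw [← h2]
    congr 1
    funext y
    rw [gw]
    congr 1
    ring
  have hpos : 0 < (2 * Real.pi) ^ ((k : ℝ) / 2) := by
    have := Real.pi_pos
    positivity
  have hi : Integrable (fun y : E k => gw y) := by
    by_contra h'
    rw [integral_undef h'] at h1
    linarith
  rw [← h1, ofReal_integral_eq_lintegral_ofReal hi (Filter.Eventually.of_forall fun y => Real.exp_nonneg _)]

theorem even_pow (n : ℕ) (hn : Odd n) :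
    (2 * Real.pi) ^ (((n + 1 : ℕ) : ℝ) / 2) = (2 * Real.pi) ^ ((n + 1) / 2) := by
  obtain ⟨k, rfl⟩ := hn
  have e1 : (2 * k + 1 + 1) / 2 = k + 1 := by omega
  have e2 : (((2 * k + 1 + 1 : ℕ) : ℝ) / 2) = ((k + 1 : ℕ) : ℝ) := by push_cast; ring
  rw [e1, e2, Real.rpow_natCast]

theorem hh_pos (l a : ℝ) (h0 : 0 < l) (h1 : l ≤ 1 / 2) : 0 < hh l a := by
  unfold hh
  have : 0 ≤ (1 - 2 * l) * Real.sin a ^ 2 := mul_nonneg (by linarith) (sq_nonneg _)
  linarith

theorem kap_polar (l a r : ℝ) : l * (r * Real.cos a) ^ 2 + (1 - l) * (r * Real.sin a) ^ 2 = r ^ 2 * hh l a := by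
  have h := Real.sin_sq_add_cos_sq a
  have h2 : Real.cos a ^ 2 = 1 - Real.sin a ^ 2 := by linarith
  unfold hh
  rw [mul_pow, mul_pow, h2]
  ring

/-- integral over the circle of a function of period `π` -/
theorem circle_mn (F : ℝ → ℝ) (hF : Continuous F) (hp : Function.Periodic F Real.pi) (h0 : ∀ a, 0 ≤ F a)
    (c : ℝ) (hc : 0 ≤ c) :
    ∫⁻ a in Ioo (-Real.pi) Real.pi, ENNReal.ofReal (c * F a) =
      ENNReal.ofReal (c * (2 * Real.pi) * mn F) := by
  have hpi := Real.pi_pos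
  have h1 : ∫⁻ a in Ioo (-Real.pi) Real.pi, ENNReal.ofReal (c * F a) =
      ENNReal.ofReal (∫ a in Ioo (-Real.pi) Real.pi, c * F a) := by
    rw [ofReal_integral_eq_lintegral_ofReal]
    · exact ((continuous_const.mul hF).integrableOn_Icc).mono_set Ioo_subset_Icc_self
    · exact Filter.Eventually.of_forall fun a => mul_nonneg hc (h0 a)
  rw [h1]
  congr 1
  rw [← integral_Ioc_eq_integral_Ioo, ← intervalIntegral.integral_of_le (by linarith),
    intervalIntegral.integral_const_mul]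
  have h2 : ∫ a in (-Real.pi)..Real.pi, F a = 2 * ∫ a in (0 : ℝ)..Real.pi, F a := by
    rw [← intervalIntegral.integral_add_adjacent_intervals (hF.intervalIntegrable (-Real.pi) 0)
      (hF.intervalIntegrable 0 Real.pi)]
    have h3 := hp.intervalIntegral_add_eq (-Real.pi) 0
    rw [neg_add_cancel, zero_add] at h3
    rw [h3]
    ring
  rw [h2, mn]
  field_simp

end Pool.Agent.W356.ST
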