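import Mathlib
import Pool.Agent.W546.ST.Defs
import Pool.Agent.W356.ST.Base

set_option autoImplicit false
open Matrix MeasureTheory Set Metric Filter Topology
open scoped ENNReal Nat

namespace Pool.Agent.W356.ST
open Pool.Agent.Helper82.OS Pool.Agent.W546.ST

variable {n : ℕ} (P : PA n)

/-- the matrix under the determinant -/
noncomputable def JM (y t : ℝ) (f : Fin (n + 1) → ℝ) : Matrix (Fin (n + 1)) (Fin (n + 1)) ℝ :=
  P.M y t * (P.M y t)ᵀ + vecMulVec (P.va t f) (P.va t f) + vecMulVec (P.vb y f) (P.vb y f)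

theorem J2_eq (y t : ℝ) (f : Fin (n + 1) → ℝ) : P.J2 y t f = (JM P y t f).det := rfl

theorem J2_nonneg (y t : ℝ) (f : Fin (n + 1) → ℝ) : 0 ≤ P.J2 y t f := by
  rw [J2_eq]
  apply Matrix.PosSemidef.det_nonneg
  unfold JM
  have h1 := Matrix.posSemidef_self_mul_conjTranspose (P.M y t)
  have h2 := Matrix.posSemidef_vecMulVec_self_star (P.va t f)
  have h3 := Matrix.posSemidef_vecMulVec_self_star (P.vb y f)
  rw [conjTranspose_eq_transpose_of_trivial] at h1
  rw [star_trivial] at h2 h3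
  exact (h1.add h2).add h3

theorem JM_smul (r y t : ℝ) (f : Fin (n + 1) → ℝ) : JM P (r * y) (r * t) (r • f) = r ^ 2 • JM P y t f := by
  have h1 : P.M (r * y) (r * t) = r • P.M y t := by
    unfold PA.M
    rw [smul_add, smul_smul, smul_smul]
  have h2 : P.va (r * t) (r • f) = r • P.va t f := by
    unfold PA.va
    rw [smul_add, Matrix.mulVec_smul, smul_smul, mul_assoc]
  have h3 : P.vb (r * y) (r • f) = r • P.vb y f := by
    unfold PA.vb
    rw [smul_sub, Matrix.mulVec_smul, smul_smul, mul_assoc]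
  unfold JM
  rw [h1, h2, h3, transpose_smul, Matrix.smul_mul, Matrix.mul_smul, smul_smul,
    smul_vecMulVec, vecMulVec_smul, smul_smul, smul_vecMulVec, vecMulVec_smul, smul_smul,
    smul_add, smul_add, pow_two]

theorem J2_smul (r y t : ℝ) (f : Fin (n + 1) → ℝ) :
    P.J2 (r * y) (r * t) (r • f) = (r ^ (n + 1)) ^ 2 * P.J2 y t f := by
  rw [J2_eq, JM_smul, Matrix.det_smul, Fintype.card_fin, J2_eq]
  congr 1
  ring

theorem J2_cont : Continuous (fun p : ℝ × ℝ × (Fin (n + 1) → ℝ) => P.J2 p.1 p.2.1 p.2.2) := by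
  unfold PA.J2
  apply Continuous.matrix_det
  have hM : Continuous fun p : ℝ × ℝ × (Fin (n + 1) → ℝ) => P.M p.1 p.2.1 := by
    unfold PA.M
    fun_prop
  have ha : Continuous fun p : ℝ × ℝ × (Fin (n + 1) → ℝ) => P.va p.2.1 p.2.2 := by
    unfold PA.va
    refine Continuous.add ?_ (by fun_prop)
    exact Continuous.matrix_mulVec continuous_const (by fun_prop)
  have hb : Continuous fun p : ℝ × ℝ × (Fin (n + 1) → ℝ) => P.vb p.1 p.2.2 := by
    unfold PA.vb
    refine Continuous.sub ?_ (by fun_prop)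
    exact Continuous.matrix_mulVec continuous_const (by fun_prop)
  exact ((hM.matrix_mul hM.matrix_transpose).add (ha.matrix_vecMulVec ha)).add (hb.matrix_vecMulVec hb)

theorem det_two {k : ℕ} (hk : 3 ≤ k) (u v : Fin k → ℝ) : (vecMulVec u u + vecMulVec v v).det = 0 := by
  let L : (Fin k → ℝ) →ₗ[ℝ] ℝ × ℝ :=
    { toFun := fun x => (u ⬝ᵥ x, v ⬝ᵥ x)
      map_add' := by intro x y; simp [dotProduct_add]
      map_smul' := by intro c x; simp [dotProduct_smul] }
  have hlt : Module.finrank ℝ (ℝ × ℝ) < Module.finrank ℝ (Fin k → ℝ) := by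
    simp
    omega
  have hker : LinearMap.ker L ≠ ⊥ := LinearMap.ker_ne_bot_of_finrank_lt hlt
  obtain ⟨x, hx, hx0⟩ := Submodule.exists_mem_ne_zero_of_ne_bot hker
  rw [← Matrix.exists_mulVec_eq_zero_iff]
  refine ⟨x, hx0, ?_⟩
  have hL : L x = 0 := hx
  have h1 : u ⬝ᵥ x = 0 := congrArg Prod.fst hL
  have h2 : v ⬝ᵥ x = 0 := congrArg Prod.snd hL
  rw [Matrix.add_mulVec, Matrix.vecMulVec_mulVec, Matrix.vecMulVec_mulVec, h1, h2]
  simp

theorem J2_zero (hn : 2 ≤ n) (f : Fin (n + 1) → ℝ) : P.J2 0 0 f = 0 := by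
  rw [J2_eq, JM]
  have h1 : P.M 0 0 = 0 := by simp [PA.M]
  rw [h1, Matrix.zero_mul, zero_add, det_two (by omega)]

end Pool.Agent.W356.ST
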