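import Mathlib
import Pool.Agent.W546.ST.Defs
import Pool.Agent.W356.ST.Base
import Pool.Agent.W356.ST.PAJ
import Pool.Agent.Helper82.OS.polar

set_option autoImplicit false
open Matrix MeasureTheory Set Metric Filter Topology
open scoped ENNReal Nat

namespace Pool.Agent.W356.ST
open Pool.Agent.Helper82.OS Pool.Agent.W546.ST

/-- the last coordinates -/
noncomputable def rest {n : ℕ} (z : E (n + 3)) : E (n + 1) := WithLp.toLp 2 (fun i => z i.succ.succ)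

theorem rest_smul {n : ℕ} (r : ℝ) (z : E (n + 3)) : rest (r • z) = r • rest z := by
  ext i
  simp [rest]

theorem rest_cont {n : ℕ} : Continuous (rest (n := n)) := by
  unfold rest
  fun_prop

theorem norm_split {n : ℕ} (z : E (n + 3)) : ‖z‖ ^ 2 = z 0 ^ 2 + z 1 ^ 2 + ‖rest z‖ ^ 2 := by
  rw [EuclideanSpace.real_norm_sq_eq, EuclideanSpace.real_norm_sq_eq, Fin.sum_univ_succ, Fin.sum_univ_succ,
    ← add_assoc]
  rfl

theorem iter3 {n : ℕ} (G : ℝ × ℝ × E (n + 1) → ℝ≥0∞) (hG : Measurable G) :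
    ∫⁻ y : ℝ, ∫⁻ t : ℝ, ∫⁻ f : E (n + 1), G (y, t, f) = ∫⁻ z : E (n + 3), G (z 0, z 1, rest z) := by
  have m1 := PiLp.volume_preserving_ofLp (Fin (n + 3))
  have m2 := volume_preserving_piFinSuccAbove (fun _ : Fin (n + 3) => ℝ) 0
  have m3 := (MeasurePreserving.id (volume : Measure ℝ)).prod
    (volume_preserving_piFinSuccAbove (fun _ : Fin (n + 2) => ℝ) 0)
  have m4 := (MeasurePreserving.id (volume : Measure ℝ)).prod
    ((MeasurePreserving.id (volume : Measure ℝ)).prod (PiLp.volume_preserving_toLp (Fin (n + 1))))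
  have m5 := m4.comp (m3.comp (m2.comp m1))
  have e : (Prod.map id (Prod.map id (WithLp.toLp 2)) ∘
      Prod.map id (MeasurableEquiv.piFinSuccAbove (fun _ : Fin (n + 2) => ℝ) 0) ∘
      (MeasurableEquiv.piFinSuccAbove (fun _ : Fin (n + 3) => ℝ) 0) ∘ WithLp.ofLp) =
      fun z : E (n + 3) => (z 0, z 1, rest z) := by
    funext z
    rfl
  rw [e] at m5
  rw [m5.lintegral_comp hG]
  have h1 := lintegral_prod (μ := (volume : Measure ℝ)) (ν := (volume : Measure (ℝ × E (n + 1)))) G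
    hG.aemeasurable
  refine Eq.trans ?_ h1.symm
  refine lintegral_congr fun y => ?_
  have h2 := lintegral_prod (μ := (volume : Measure ℝ)) (ν := (volume : Measure (E (n + 1))))
    (fun p => G (y, p)) (hG.comp (by fun_prop)).aemeasurable
  exact h2.symm

theorem sphere_form {n : ℕ} (g : E (n + 3) → ℝ) (hg : Measurable g) (d : ℕ)
    (hh : ∀ r : ℝ, 0 < r → ∀ z, g (r • z) = r ^ d * g z) :
    ∫⁻ z : E (n + 3), ENNReal.ofReal (g z * (gt (z 0) * gt (z 1) * gw (rest z))) =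
      ENNReal.ofReal (R (d + (n + 2))) *
        ∫⁻ z : sphere (0 : E (n + 3)) 1, ENNReal.ofReal (g z) ∂(sg (n + 3)) := by
  have h1 := polar (k := n + 3) (by omega) (fun r => ENNReal.ofReal (gt r))
    (by unfold gt; fun_prop) (fun z => ENNReal.ofReal (g z)) (hg.ennreal_ofReal) d (by
      intro r hr z
      rw [hh r hr z, ENNReal.ofReal_mul (by positivity)])
  have h2 : ∫⁻ r in Ioi (0 : ℝ), ENNReal.ofReal (gt r) * ENNReal.ofReal (r ^ (d + (n + 3 - 1))) =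
      ENNReal.ofReal (R (d + (n + 2))) := by
    rw [← rad]
    refine setLIntegral_congr_fun measurableSet_Ioi fun r hr => ?_
    have hr' : (0 : ℝ) < r := hr
    have hg0 : 0 ≤ gt r := Real.exp_nonneg _
    rw [← ENNReal.ofReal_mul hg0]
    congr 1
    rw [mul_comm]
    rfl
  rw [h2] at h1
  rw [← h1]
  refine lintegral_congr fun z => ?_
  have h3 : gt (z 0) * gt (z 1) * gw (rest z) = gt ‖z‖ := by
    unfold gt gw
    rw [← Real.exp_add, ← Real.exp_add, norm_split z]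
    congr 1
    ring
  have hg0 : 0 ≤ gt ‖z‖ := Real.exp_nonneg _
  rw [h3, mul_comm (g z), ENNReal.ofReal_mul hg0]

theorem cs_sphere {α : Type*} [MeasurableSpace α] (ν : Measure α) (a b : α → ℝ) (ha : Measurable a)
    (hb : Measurable b) (ha0 : ∀ x, 0 ≤ a x) (hb0 : ∀ x, 0 ≤ b x) :
    (∫⁻ x, ENNReal.ofReal (Real.sqrt (a x) * Real.sqrt (b x)) ∂ν) ^ 2 ≤
      (∫⁻ x, ENNReal.ofReal (a x) ∂ν) * ∫⁻ x, ENNReal.ofReal (b x) ∂ν := by
  have h1 := ENNReal.lintegral_mul_le_Lp_mul_Lq ν (p := 2) (q := 2) Real.HolderConjugate.two_two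
    (f := fun x => ENNReal.ofReal (Real.sqrt (a x))) (g := fun x => ENNReal.ofReal (Real.sqrt (b x)))
    (by fun_prop) (by fun_prop)
  have e1 : ∀ c : ℝ, 0 ≤ c → ENNReal.ofReal (Real.sqrt c) ^ (2 : ℝ) = ENNReal.ofReal c := by
    intro c hc
    rw [ENNReal.rpow_two, ← ENNReal.ofReal_pow (Real.sqrt_nonneg _), Real.sq_sqrt hc]
  simp only [Pi.mul_apply] at h1
  simp_rw [fun x => e1 (a x) (ha0 x), fun x => e1 (b x) (hb0 x)] at h1
  have h2 : ∫⁻ x, ENNReal.ofReal (Real.sqrt (a x) * Real.sqrt (b x)) ∂ν =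
      ∫⁻ x, ENNReal.ofReal (Real.sqrt (a x)) * ENNReal.ofReal (Real.sqrt (b x)) ∂ν :=
    lintegral_congr fun x => ENNReal.ofReal_mul (Real.sqrt_nonneg _)
  rw [h2]
  calc (∫⁻ x, ENNReal.ofReal (Real.sqrt (a x)) * ENNReal.ofReal (Real.sqrt (b x)) ∂ν) ^ 2
      ≤ ((∫⁻ x, ENNReal.ofReal (a x) ∂ν) ^ (1 / 2 : ℝ) * (∫⁻ x, ENNReal.ofReal (b x) ∂ν) ^ (1 / 2 : ℝ)) ^ 2 := by
        gcongr
    _ = (∫⁻ x, ENNReal.ofReal (a x) ∂ν) * ∫⁻ x, ENNReal.ofReal (b x) ∂ν := by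
        rw [mul_pow, ← ENNReal.rpow_two, ← ENNReal.rpow_mul, ← ENNReal.rpow_two, ← ENNReal.rpow_mul]
        norm_num

theorem R_rel (n : ℕ) : R (n + 1 + (n + 2)) ^ 2 = rho n * (R (n + 2 + (n + 2)) * R (n + (n + 2))) := by
  unfold R rho
  have c1 : (((n + 1 + (n + 2) : ℕ) : ℝ) + 1) / 2 = (n : ℝ) + 2 := by push_cast; ring
  have c2 : (((n + 2 + (n + 2) : ℕ) : ℝ) + 1) / 2 = (n : ℝ) + 5 / 2 := by push_cast; ring
  have c3 : (((n + (n + 2) : ℕ) : ℝ) + 1) / 2 = (n : ℝ) + 3 / 2 := by push_cast; ring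
  have c4 : (((n + 1 + (n + 2) : ℕ) : ℝ) - 1) / 2 = (n : ℝ) + 1 := by push_cast; ring
  have c5 : (((n + 2 + (n + 2) : ℕ) : ℝ) - 1) / 2 = ((n : ℝ) + 1) + 1 / 2 := by push_cast; ring
  have c6 : (((n + (n + 2) : ℕ) : ℝ) - 1) / 2 = ((n : ℝ) + 1) - 1 / 2 := by push_cast; ring
  rw [c1, c2, c3, c4, c5, c6, Real.rpow_add (by norm_num) ((n : ℝ) + 1) (1 / 2),
    Real.rpow_sub (by norm_num) ((n : ℝ) + 1) (1 / 2)]
  have g1 : 0 < Real.Gamma ((n : ℝ) + 5 / 2) := Real.Gamma_pos_of_pos (by positivity)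
  have g2 : 0 < Real.Gamma ((n : ℝ) + 3 / 2) := Real.Gamma_pos_of_pos (by positivity)
  have g3 : (0 : ℝ) < (2 : ℝ) ^ (1 / 2 : ℝ) := by positivity
  generalize (2 : ℝ) ^ ((n : ℝ) + 1) = A
  generalize (2 : ℝ) ^ (1 / 2 : ℝ) = B at g3
  generalize Real.Gamma ((n : ℝ) + 5 / 2) = C at g1
  generalize Real.Gamma ((n : ℝ) + 3 / 2) = D at g2
  field_simp


end Pool.Agent.W356.ST
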