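import Mathlib
import Pool.Agent.W546.ST.Defs
import Pool.Agent.W356.ST.Base
import Pool.Agent.W356.ST.PAJ
import Pool.Agent.W356.ST.CSa

set_option autoImplicit false
open Matrix MeasureTheory Set Metric Filter Topology
open scoped ENNReal Nat

namespace Pool.Agent.W356.ST
open Pool.Agent.Helper82.OS Pool.Agent.W546.ST

variable {n : ℕ} (P : PA n) (l : ℝ)

attribute [local irreducible] Pool.Agent.W546.ST.PA.J2

noncomputable def gJ2 (z : E (n + 3)) : ℝ := P.J2 (z 0) (z 1) (rest z).ofLp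

noncomputable def gK (n : ℕ) (l : ℝ) (z : E (n + 3)) : ℝ :=
  Real.sqrt ((l * (z 0) ^ 2 + (1 - l) * (z 1) ^ 2) ^ n)

theorem gJ2_cont : Continuous (gJ2 P) := by
  have hzc : Continuous fun z : E (n + 3) => (z 0, z 1, (rest z).ofLp) := by
    have := rest_cont (n := n)
    fun_prop
  exact (J2_cont P).comp hzc

theorem gK_cont : Continuous (gK n l) := by
  unfold gK
  fun_prop

theorem gJ2_nonneg (z : E (n + 3)) : 0 ≤ gJ2 P z := J2_nonneg P _ _ _

theorem gK_nonneg (z : E (n + 3)) : 0 ≤ gK n l z := Real.sqrt_nonneg _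

theorem gJ2_smul (r : ℝ) (z : E (n + 3)) : gJ2 P (r • z) = (r ^ (n + 1)) ^ 2 * gJ2 P z := by
  unfold gJ2
  rw [rest_smul, ← J2_smul]
  rfl

theorem gK_smul (r : ℝ) (hr : 0 < r) (z : E (n + 3)) : gK n l (r • z) = r ^ n * gK n l z := by
  unfold gK
  have e1 : l * (r • z) 0 ^ 2 + (1 - l) * (r • z) 1 ^ 2 = r ^ 2 * (l * z 0 ^ 2 + (1 - l) * z 1 ^ 2) := by
    simp only [PiLp.smul_apply, smul_eq_mul]
    ring
  rw [e1, mul_pow, ← pow_mul, mul_comm 2 n, pow_mul, Real.sqrt_mul (by positivity),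
    Real.sqrt_sq (by positivity)]

theorem J2c3 : Continuous fun p : ℝ × ℝ × E (n + 1) => P.J2 p.1 p.2.1 p.2.2.ofLp :=
  (J2_cont P).comp (by fun_prop : Continuous fun p : ℝ × ℝ × E (n + 1) => (p.1, p.2.1, p.2.2.ofLp))

theorem hJ : P.GJ = ENNReal.ofReal (R (n + 1 + (n + 2))) *
    ∫⁻ z : sphere (0 : E (n + 3)) 1, ENNReal.ofReal (Real.sqrt (gJ2 P z)) ∂(sg (n + 3)) := by
  rw [← sphere_form (fun z => Real.sqrt (gJ2 P z)) ((gJ2_cont P).measurable.sqrt) (n + 1) (by
    intro r hr z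
    rw [gJ2_smul, Real.sqrt_mul (by positivity), Real.sqrt_sq (by positivity)])]
  have h := iter3 (fun p : ℝ × ℝ × E (n + 1) => ENNReal.ofReal (Real.sqrt (P.J2 p.1 p.2.1 p.2.2.ofLp) *
      (gt p.1 * gt p.2.1 * gw p.2.2))) (by
    refine Measurable.ennreal_ofReal ?_
    refine ((J2c3 P).measurable.sqrt).mul ?_
    unfold gt gw
    fun_prop)
  exact h

theorem gQ_smul (r : ℝ) (hr : 0 < r) (z : E (n + 3)) :
    gJ2 P (r • z) / gK n l (r • z) = r ^ (n + 2) * (gJ2 P z / gK n l z) := by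
  rw [gJ2_smul, gK_smul l r hr, mul_div_mul_comm]
  congr 1
  field_simp
  try ring

theorem hQ : P.GQ l = ENNReal.ofReal (R (n + 2 + (n + 2))) *
    ∫⁻ z : sphere (0 : E (n + 3)) 1, ENNReal.ofReal (gJ2 P z / gK n l z) ∂(sg (n + 3)) := by
  rw [← sphere_form (fun z => gJ2 P z / gK n l z)
    ((gJ2_cont P).measurable.div (gK_cont l).measurable) (n + 2)
    (fun r hr z => gQ_smul P l r hr z)]
  have h := iter3 (fun p : ℝ × ℝ × E (n + 1) => ENNReal.ofReal (P.J2 p.1 p.2.1 p.2.2.ofLp /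
      Real.sqrt ((l * p.1 ^ 2 + (1 - l) * p.2.1 ^ 2) ^ n) * (gt p.1 * gt p.2.1 * gw p.2.2))) (by
    refine Measurable.ennreal_ofReal ?_
    refine ((J2c3 P).measurable.div ?_).mul ?_
    · fun_prop
    · unfold gt gw
      fun_prop)
  exact h

theorem hK : GK n l = ENNReal.ofReal (R (n + (n + 2))) *
    ∫⁻ z : sphere (0 : E (n + 3)) 1, ENNReal.ofReal (gK n l z) ∂(sg (n + 3)) := by
  rw [← sphere_form (fun z => gK n l z) (gK_cont l).measurable n (fun r hr z => gK_smul l r hr z)]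
  have h := iter3 (fun p : ℝ × ℝ × E (n + 1) => ENNReal.ofReal (
      Real.sqrt ((l * p.1 ^ 2 + (1 - l) * p.2.1 ^ 2) ^ n) * (gt p.1 * gt p.2.1 * gw p.2.2))) (by
    refine Measurable.ennreal_ofReal ?_
    refine Measurable.mul ?_ ?_
    · fun_prop
    · unfold gt gw
      fun_prop)
  exact h

theorem hpt (hn : 2 ≤ n) (h0 : 0 < l) (h1 : l ≤ 1 / 2) (z : E (n + 3)) :
    Real.sqrt (gJ2 P z) = Real.sqrt (gJ2 P z / gK n l z) * Real.sqrt (gK n l z) := by
  have hQ0 : 0 ≤ gJ2 P z / gK n l z := div_nonneg (gJ2_nonneg P _) (gK_nonneg l _)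
  rw [← Real.sqrt_mul hQ0]
  congr 1
  rcases eq_or_ne (gK n l z) 0 with hz | hz
  · rw [hz, mul_zero]
    have h5 : 0 < 1 - l := by linarith
    have hκ : 0 ≤ l * (z 0) ^ 2 + (1 - l) * (z 1) ^ 2 := by positivity
    have h3 : (l * (z 0) ^ 2 + (1 - l) * (z 1) ^ 2) ^ n = 0 := by
      have := Real.sqrt_eq_zero'.mp hz
      exact le_antisymm this (pow_nonneg hκ _)
    have h4 : l * (z 0) ^ 2 + (1 - l) * (z 1) ^ 2 = 0 := (pow_eq_zero_iff (by omega)).mp h3
    have h6 : z 0 = 0 := by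
      have : 0 ≤ (1 - l) * z 1 ^ 2 := by positivity
      have h7 : l * z 0 ^ 2 = 0 := le_antisymm (by linarith) (by positivity)
      rcases mul_eq_zero.mp h7 with h | h
      · linarith
      · exact (pow_eq_zero_iff (by norm_num)).mp h
    have h8 : z 1 = 0 := by
      rw [h6] at h4
      have h7 : (1 - l) * z 1 ^ 2 = 0 := by linarith
      rcases mul_eq_zero.mp h7 with h | h
      · linarith
      · exact (pow_eq_zero_iff (by norm_num)).mp h
    unfold gJ2
    rw [h6, h8]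
    exact J2_zero P hn _
  · exact (div_mul_cancel₀ _ hz).symm

theorem CS : St_CS := by
  intro n hn P l h0 h1
  rw [hJ P, hQ P l, hK l]
  have hcs := cs_sphere (sg (n + 3)) (fun z : sphere (0 : E (n + 3)) 1 => gJ2 P z / gK n l z)
    (fun z => gK n l z)
    (((gJ2_cont P).measurable.div (gK_cont l).measurable).comp measurable_subtype_coe)
    ((gK_cont l).measurable.comp measurable_subtype_coe)
    (fun z => div_nonneg (gJ2_nonneg P _) (gK_nonneg l _)) (fun z => gK_nonneg l _)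
  simp only [← hpt P l (by omega) h0 h1] at hcs
  have hrho : 0 ≤ rho n := by
    unfold rho
    have g1 : 0 < Real.Gamma ((n : ℝ) + 5 / 2) := Real.Gamma_pos_of_pos (by positivity)
    have g2 : 0 < Real.Gamma ((n : ℝ) + 3 / 2) := Real.Gamma_pos_of_pos (by positivity)
    positivity
  have hR : ENNReal.ofReal (R (n + 1 + (n + 2))) ^ 2 = ENNReal.ofReal (rho n) *
      (ENNReal.ofReal (R (n + 2 + (n + 2))) * ENNReal.ofReal (R (n + (n + 2)))) := by
    rw [← ENNReal.ofReal_pow (R_pos _).le, R_rel, ENNReal.ofReal_mul hrho, ENNReal.ofReal_mul (R_pos _).le]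
  rw [mul_pow, hR]
  refine (mul_le_mul_right hcs _).trans (le_of_eq ?_)
  ring

end Pool.Agent.W356.ST
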