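import Mathlib
import Pool.Agent.W546.ST.Defs
import Pool.Agent.W356.ST.Base

set_option autoImplicit false
open Matrix MeasureTheory Set Metric Filter Topology
open scoped ENNReal Nat

namespace Pool.Agent.W356.ST
open Pool.Agent.Helper82.OS Pool.Agent.W546.ST

theorem gt_polar (r a : ℝ) : gt (r * Real.cos a) * gt (r * Real.sin a) = gt r := by
  unfold gt
  rw [← Real.exp_add]
  congr 1
  have h := Real.sin_sq_add_cos_sq a
  have h2 : Real.cos a ^ 2 = 1 - Real.sin a ^ 2 := by linarith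
  rw [mul_pow, mul_pow, h2]
  ring

theorem sqrt_kap (n : ℕ) (l a r : ℝ) (hr : 0 < r) :
    Real.sqrt ((l * (r * Real.cos a) ^ 2 + (1 - l) * (r * Real.sin a) ^ 2) ^ n) =
      r ^ n * Real.sqrt (hh l a ^ n) := by
  rw [kap_polar, mul_pow, ← pow_mul, mul_comm 2 n, pow_mul, Real.sqrt_mul (by positivity),
    Real.sqrt_sq (by positivity)]

theorem hq0_cont (n : ℕ) (l : ℝ) : Continuous (hq n 0 l) := by
  unfold hq hh
  simp only [pow_zero, div_one]
  fun_prop

theorem hh_per (l a : ℝ) : hh l (a + Real.pi) = hh l a := by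
  unfold hh
  rw [Real.sin_add_pi]
  ring

theorem hq_per (n k : ℕ) (l : ℝ) : Function.Periodic (hq n k l) Real.pi := by
  intro a
  unfold hq
  rw [hh_per]

theorem GKt : St_GK := by
  intro n hn l h0 h1
  unfold GK
  have hpi := Real.pi_pos
  have hC : (0 : ℝ) ≤ (2 * Real.pi) ^ ((n + 1) / 2) := by positivity
  have hin : ∀ y t : ℝ, ∫⁻ f : E (n + 1),
      ENNReal.ofReal (Real.sqrt ((l * y ^ 2 + (1 - l) * t ^ 2) ^ n) * (gt y * gt t * gw f)) =
      ENNReal.ofReal (Real.sqrt ((l * y ^ 2 + (1 - l) * t ^ 2) ^ n) * (gt y * gt t)) *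
        ENNReal.ofReal ((2 * Real.pi) ^ ((n + 1) / 2)) := by
    intro y t
    rw [← even_pow n hn, ← gauss_total (n + 1), ← lintegral_const_mul' _ _ ENNReal.ofReal_ne_top]
    refine lintegral_congr fun f => ?_
    have hg : 0 ≤ gt y * gt t := mul_nonneg (Real.exp_nonneg _) (Real.exp_nonneg _)
    rw [← ENNReal.ofReal_mul (mul_nonneg (Real.sqrt_nonneg _) hg)]
    congr 1
    ring
  simp_rw [hin]
  rw [polar2]
  · have hr : ∀ a, ∫⁻ r in Ioi (0 : ℝ), ENNReal.ofReal r *
        (ENNReal.ofReal (Real.sqrt ((l * (r * Real.cos a) ^ 2 + (1 - l) * (r * Real.sin a) ^ 2) ^ n) *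
          (gt (r * Real.cos a) * gt (r * Real.sin a))) * ENNReal.ofReal ((2 * Real.pi) ^ ((n + 1) / 2))) =
        ENNReal.ofReal (((2 * Real.pi) ^ ((n + 1) / 2) * R (n + 1)) * hq n 0 l a) := by
      intro a
      have hq0 : 0 ≤ hq n 0 l a := by
        unfold hq
        exact div_nonneg (Real.sqrt_nonneg _) (pow_nonneg (hh_pos l a h0 h1).le _)
      have e1 : ((2 * Real.pi) ^ ((n + 1) / 2) * R (n + 1)) * hq n 0 l a =
          (((2 * Real.pi) ^ ((n + 1) / 2)) * hq n 0 l a) * R (n + 1) := by ring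
      rw [e1, ENNReal.ofReal_mul (mul_nonneg hC hq0), ← rad, ← lintegral_const_mul' _ _ ENNReal.ofReal_ne_top]
      refine setLIntegral_congr_fun measurableSet_Ioi fun r hr => ?_
      have hr' : (0 : ℝ) < r := hr
      rw [sqrt_kap n l a r hr', gt_polar]
      have hg : 0 ≤ gt r := Real.exp_nonneg _
      rw [← ENNReal.ofReal_mul (by positivity), ← ENNReal.ofReal_mul hr'.le,
        ← ENNReal.ofReal_mul (mul_nonneg hC hq0)]
      congr 1
      unfold hq
      rw [pow_zero, div_one]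
      ring
    simp_rw [hr]
    rw [circle_mn (hq n 0 l) (hq0_cont n l) (hq_per n 0 l)
      (fun a => div_nonneg (Real.sqrt_nonneg _) (pow_nonneg (hh_pos l a h0 h1).le _)) _
      (mul_nonneg hC (R_pos _).le)]
    rw [R_odd_succ n hn]
    unfold cst Pool.Agent.W546.ST.Eq
    rfl
  · unfold Function.uncurry gt
    fun_prop

end Pool.Agent.W356.ST
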