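import Mathlib
import Pool.Agent.W546.ST.Defs
import Pool.Agent.W356.ST.Base
import Pool.Agent.W356.ST.PAJ
import Pool.Agent.Helper82.OS.bdry_det

set_option autoImplicit false
open Matrix MeasureTheory Set Metric Filter Topology
open scoped ENNReal Nat

namespace Pool.Agent.W356.ST
open Pool.Agent.Helper82.OS Pool.Agent.W546.ST

variable {n : ℕ} (P : PA n)

theorem JM_polar (r a : ℝ) (f : Fin (n + 1) → ℝ) :
    JM P (r * Real.cos a) (r * Real.sin a) f =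
      P.Y a * (r ^ 2 • (1 : Matrix (Fin (n + 1)) (Fin (n + 1)) ℝ) + vecMulVec f f) * (P.Y a)ᵀ +
        vecMulVec (P.Yd a *ᵥ f - (r * P.s) • Pi.single 0 1) (P.Yd a *ᵥ f - (r * P.s) • Pi.single 0 1) := by
  have hcs := Real.sin_sq_add_cos_sq a
  have h1 : P.M (r * Real.cos a) (r * Real.sin a) = r • P.Y a := by
    unfold PA.M PA.Y
    rw [smul_add, smul_smul, smul_smul]
  have h2 : P.Y a * (r ^ 2 • (1 : Matrix (Fin (n + 1)) (Fin (n + 1)) ℝ) + vecMulVec f f) * (P.Y a)ᵀ =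
      (r • P.Y a) * (r • P.Y a)ᵀ + vecMulVec (P.Y a *ᵥ f) (P.Y a *ᵥ f) := by
    rw [Matrix.mul_add, Matrix.add_mul, Matrix.mul_vecMulVec, Matrix.vecMulVec_mul, Matrix.vecMul_transpose]
    congr 1
    rw [Matrix.mul_smul, Matrix.mul_one, transpose_smul, Matrix.smul_mul, Matrix.smul_mul, Matrix.mul_smul,
      smul_smul, pow_two]
  unfold JM
  rw [h1, h2, add_assoc, add_assoc]
  congr 1
  have h3 : P.va (r * Real.sin a) f = Real.cos a • (P.Y a *ᵥ f) -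
      Real.sin a • (P.Yd a *ᵥ f - (r * P.s) • Pi.single 0 1) := by
    unfold PA.va PA.Y PA.Yd
    rw [Matrix.add_mulVec, Matrix.add_mulVec, Matrix.smul_mulVec, Matrix.smul_mulVec, Matrix.smul_mulVec,
      Matrix.smul_mulVec]
    ext i
    simp only [Pi.add_apply, Pi.sub_apply, Pi.smul_apply, smul_eq_mul]
    linear_combination (-(P.A *ᵥ f) i) * hcs
  have h4 : P.vb (r * Real.cos a) f = Real.sin a • (P.Y a *ᵥ f) +
      Real.cos a • (P.Yd a *ᵥ f - (r * P.s) • Pi.single 0 1) := by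
    unfold PA.vb PA.Y PA.Yd
    rw [Matrix.add_mulVec, Matrix.add_mulVec, Matrix.smul_mulVec, Matrix.smul_mulVec, Matrix.smul_mulVec,
      Matrix.smul_mulVec]
    ext i
    simp only [Pi.add_apply, Pi.sub_apply, Pi.smul_apply, smul_eq_mul]
    linear_combination (-(P.C *ᵥ f) i) * hcs
  rw [h3, h4]
  generalize P.Y a *ᵥ f = p
  generalize P.Yd a *ᵥ f - (r * P.s) • Pi.single 0 1 = q
  ext i j
  simp only [Matrix.add_apply, vecMulVec_apply, Pi.add_apply, Pi.sub_apply, Pi.smul_apply, smul_eq_mul]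
  linear_combination (p i * p j + q i * q j) * hcs

/-- determinant of `r² + f fᵀ` -/
theorem detB (r : ℝ) (f : Fin (n + 1) → ℝ) :
    (r ^ 2 • (1 : Matrix (Fin (n + 1)) (Fin (n + 1)) ℝ) + vecMulVec f f).det =
      (r ^ 2) ^ n * (r ^ 2 + f ⬝ᵥ f) := by
  rw [bdry_det_rank_one_bdry_detx, Matrix.det_smul, Matrix.adjugate_smul, Matrix.adjugate_one, Matrix.det_one,
    Fintype.card_fin, Nat.add_sub_cancel, Matrix.smul_mulVec, Matrix.one_mulVec, dotProduct_smul, smul_eq_mul]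
  ring

/-- adjugate of `r² + f fᵀ` -/
theorem adjB (hn : 1 ≤ n) (r : ℝ) (hr : 0 < r) (f : Fin (n + 1) → ℝ) :
    (r ^ 2 • (1 : Matrix (Fin (n + 1)) (Fin (n + 1)) ℝ) + vecMulVec f f).adjugate =
      (r ^ 2) ^ (n - 1) • ((r ^ 2 + f ⬝ᵥ f) • (1 : Matrix (Fin (n + 1)) (Fin (n + 1)) ℝ) - vecMulVec f f) := by
  set B := r ^ 2 • (1 : Matrix (Fin (n + 1)) (Fin (n + 1)) ℝ) + vecMulVec f f with hB
  set X := (r ^ 2) ^ (n - 1) • ((r ^ 2 + f ⬝ᵥ f) • (1 : Matrix (Fin (n + 1)) (Fin (n + 1)) ℝ) - vecMulVec f f)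
    with hX
  have hff : 0 ≤ f ⬝ᵥ f := by
    unfold dotProduct
    exact Finset.sum_nonneg fun i _ => mul_self_nonneg _
  have hdet : B.det ≠ 0 := by
    rw [hB, detB]
    positivity
  have hBX : B * X = B.det • (1 : Matrix (Fin (n + 1)) (Fin (n + 1)) ℝ) := by
    rw [hB, detB, hX, Matrix.mul_smul]
    have h1 : (r ^ 2 • (1 : Matrix (Fin (n + 1)) (Fin (n + 1)) ℝ) + vecMulVec f f) *
        ((r ^ 2 + f ⬝ᵥ f) • (1 : Matrix (Fin (n + 1)) (Fin (n + 1)) ℝ) - vecMulVec f f) =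
        (r ^ 2 * (r ^ 2 + f ⬝ᵥ f)) • (1 : Matrix (Fin (n + 1)) (Fin (n + 1)) ℝ) := by
      rw [Matrix.add_mul, Matrix.mul_sub, Matrix.mul_sub, Matrix.smul_mul, Matrix.smul_mul, Matrix.one_mul,
        Matrix.one_mul, Matrix.mul_smul, Matrix.mul_one, Matrix.vecMulVec_mul_vecMulVec]
      ext i j
      simp only [Matrix.add_apply, Matrix.sub_apply, Matrix.smul_apply, vecMulVec_apply, smul_eq_mul,
        Pi.smul_apply]
      ring
    rw [h1, smul_smul]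
    congr 1
    obtain ⟨k, rfl⟩ : ∃ k, n = k + 1 := ⟨n - 1, by omega⟩
    rw [Nat.add_sub_cancel]
    ring
  have h2 : B.det • B.adjugate = B.det • X := by
    calc B.det • B.adjugate = B.adjugate * (B.det • (1 : Matrix (Fin (n + 1)) (Fin (n + 1)) ℝ)) := by
          rw [Matrix.mul_smul, Matrix.mul_one]
      _ = B.adjugate * (B * X) := by rw [hBX]
      _ = B.det • X := by rw [← Matrix.mul_assoc, Matrix.adjugate_mul, Matrix.smul_mul, Matrix.one_mul]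
  exact smul_right_injective _ hdet h2

theorem J2_polar (hn : 1 ≤ n) (r a : ℝ) (hr : 0 < r) (f : Fin (n + 1) → ℝ) :
    P.J2 (r * Real.cos a) (r * Real.sin a) f =
      (P.Y a).det ^ 2 * ((r ^ 2) ^ n * (r ^ 2 + f ⬝ᵥ f)) +
      (r ^ 2) ^ (n - 1) * ((r ^ 2 + f ⬝ᵥ f) *
        ((P.T a *ᵥ f - r • P.ze a) ⬝ᵥ (P.T a *ᵥ f - r • P.ze a)) -
        (f ⬝ᵥ (P.T a *ᵥ f - r • P.ze a)) ^ 2) := by
  rw [J2_eq, JM_polar, bdry_det_rank_one_bdry_detx, Matrix.det_mul, Matrix.det_mul, detB, Matrix.det_transpose,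
    Matrix.adjugate_mul_distrib, Matrix.adjugate_mul_distrib, adjB hn r hr, ← Matrix.adjugate_transpose]
  have hv : (P.Y a).adjugate *ᵥ (P.Yd a *ᵥ f - (r * P.s) • Pi.single 0 1) = P.T a *ᵥ f - r • P.ze a := by
    unfold PA.T PA.ze
    rw [Matrix.mulVec_sub, Matrix.mulVec_mulVec, Matrix.mulVec_smul, smul_smul]
  set z := P.Yd a *ᵥ f - (r * P.s) • Pi.single 0 1 with hz
  set v := P.T a *ᵥ f - r • P.ze a with hvdef
  rw [← Matrix.mulVec_mulVec, ← Matrix.mulVec_mulVec, hv, Matrix.dotProduct_mulVec, Matrix.vecMul_transpose, hv]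
  rw [Matrix.smul_mulVec, Matrix.sub_mulVec, Matrix.smul_mulVec, Matrix.one_mulVec, Matrix.vecMulVec_mulVec,
    dotProduct_smul, dotProduct_sub, dotProduct_smul]
  have e1 : v ⬝ᵥ (MulOpposite.op (f ⬝ᵥ v) • f) = (f ⬝ᵥ v) ^ 2 := by
    rw [dotProduct_smul, dotProduct_comm v f]
    simp [pow_two]
  rw [e1]
  simp only [smul_eq_mul]
  ring

end Pool.Agent.W356.ST
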