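import Mathlib
import Pool.Agent.W546.ST.Defs
import Pool.Agent.W356.ST.Base

set_option autoImplicit false
open MeasureTheory Set Metric Filter Topology MvPolynomial
open scoped ENNReal Nat Matrix

namespace Pool.Agent.W356.ST
open Pool.Agent.Helper82.OS Pool.Agent.W546.ST

/-! ### Gaussian integrals of polynomials -/

/-- one-dimensional moments -/
noncomputable def c1 (m : ℕ) : ℝ := ∫ x : ℝ, x ^ m * gt x

theorem int1 (m : ℕ) : Integrable fun x : ℝ => x ^ m * gt x := by
  have h := integrable_rpow_mul_exp_neg_mul_sq (b := 1 / 2) (by norm_num) (s := m)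
    (by have := Nat.cast_nonneg (α := ℝ) m; linarith)
  refine h.congr (Filter.Eventually.of_forall fun x => ?_)
  simp only
  rw [Real.rpow_natCast, gt]
  congr 2
  ring

theorem gt_deriv (x : ℝ) : HasDerivAt gt (-(x * gt x)) x := by
  have h1 : HasDerivAt (fun x : ℝ => -(x ^ 2 / 2)) (-x) x := by
    have h := ((hasDerivAt_pow 2 x).div_const 2).neg
    exact h.congr_deriv (by norm_num)
  have h2 := h1.exp
  refine HasDerivAt.congr_deriv (f := fun x : ℝ => Real.exp (-(x ^ 2 / 2))) h2 ?_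
  show _ = -(x * Real.exp (-(x ^ 2 / 2)))
  ring

theorem c1_rec (m : ℕ) : c1 (m + 1) = m * c1 (m - 1) := by
  have hd : ∀ x : ℝ, HasDerivAt (fun x : ℝ => x ^ m * gt x)
      ((m : ℝ) * (x ^ (m - 1) * gt x) - x ^ (m + 1) * gt x) x := by
    intro x
    have h := (hasDerivAt_pow m x).mul (gt_deriv x)
    exact h.congr_deriv (by ring)
  have hi : Integrable fun x : ℝ => (m : ℝ) * (x ^ (m - 1) * gt x) - x ^ (m + 1) * gt x :=
    ((int1 (m - 1)).const_mul _).sub (int1 (m + 1))
  have h := integral_eq_zero_of_hasDerivAt_of_integrable hd hi (int1 m)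
  rw [integral_sub ((int1 (m - 1)).const_mul _) (int1 (m + 1)), integral_const_mul] at h
  unfold c1
  linarith

/-- the weight -/
noncomputable def GG {k : ℕ} (x : Fin k → ℝ) : ℝ := ∏ i, gt (x i)

theorem eval_mono {k : ℕ} (u : Fin k →₀ ℕ) (a : ℝ) (x : Fin k → ℝ) :
    eval x (monomial u a) * GG x = a * ∏ i, (x i ^ u i * gt (x i)) := by
  rw [eval_monomial, Finsupp.prod_fintype _ _ (fun i => pow_zero _), GG, Finset.prod_mul_distrib]
  ring

theorem mono_int {k : ℕ} (u : Fin k →₀ ℕ) (a : ℝ) :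
    Integrable (fun x : Fin k → ℝ => eval x (monomial u a) * GG x) := by
  simp_rw [eval_mono]
  exact (Integrable.fintype_prod (f := fun i x => x ^ u i * gt x) (fun i => int1 (u i))).const_mul a

theorem mono_val {k : ℕ} (u : Fin k →₀ ℕ) (a : ℝ) :
    ∫ x : Fin k → ℝ, eval x (monomial u a) * GG x = a * ∏ i, c1 (u i) := by
  simp_rw [eval_mono]
  rw [integral_const_mul, integral_fintype_prod_volume_eq_prod (fun i x => x ^ u i * gt x)]
  rfl

theorem poly_int {k : ℕ} (p : MvPolynomial (Fin k) ℝ) :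
    Integrable (fun x : Fin k → ℝ => eval x p * GG x) := by
  induction p using MvPolynomial.induction_on' with
  | monomial u a => exact mono_int u a
  | add p q hp hq =>
    simp only [map_add, add_mul]
    exact hp.add hq

/-- the Gaussian functional -/
noncomputable def L (k : ℕ) : MvPolynomial (Fin k) ℝ →ₗ[ℝ] ℝ where
  toFun p := ∫ x : Fin k → ℝ, eval x p * GG x
  map_add' p q := by
    simp only [map_add, add_mul]
    exact integral_add (poly_int p) (poly_int q)
  map_smul' a p := by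
    simp only [smul_eval, mul_assoc, RingHom.id_apply, smul_eq_mul]
    exact integral_const_mul a _

theorem L_mono {k : ℕ} (u : Fin k →₀ ℕ) (a : ℝ) : L k (monomial u a) = a * ∏ i, c1 (u i) := mono_val u a

theorem stein {k : ℕ} (i : Fin k) (p : MvPolynomial (Fin k) ℝ) : L k (X i * p) = L k (pderiv i p) := by
  induction p using MvPolynomial.induction_on' with
  | monomial u a =>
    obtain ⟨up, hup⟩ : ∃ up : Fin k →₀ ℕ, up = u + Finsupp.single i 1 := ⟨_, rfl⟩
    obtain ⟨um, hum⟩ : ∃ um : Fin k →₀ ℕ, um = u - Finsupp.single i 1 := ⟨_, rfl⟩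
    have h1 : (X i : MvPolynomial (Fin k) ℝ) * monomial u a = monomial up a := by
      rw [X, monomial_mul, one_mul, add_comm, hup]
    rw [h1, pderiv_monomial, ← hum, L_mono, L_mono, ← Finset.mul_prod_erase Finset.univ _ (Finset.mem_univ i),
      ← Finset.mul_prod_erase Finset.univ (fun j => c1 (um j)) (Finset.mem_univ i)]
    have h2 : up i = u i + 1 := by rw [hup]; simp
    have h3 : um i = u i - 1 := by rw [hum]; simp
    have h4 : ∏ j ∈ Finset.univ.erase i, c1 (up j) = ∏ j ∈ Finset.univ.erase i, c1 (um j) := by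
      refine Finset.prod_congr rfl fun j hj => ?_
      have hji : j ≠ i := Finset.ne_of_mem_erase hj
      congr 1
      rw [hup, hum]
      simp [hji.symm]
    rw [h2, h3, h4, c1_rec]
    ring
  | add p q hp hq => rw [mul_add, map_add, map_add, map_add, hp, hq]

theorem gw_eq {k : ℕ} (f : E k) : gw f = GG f.ofLp := by
  unfold gw GG gt
  rw [← Real.exp_sum, EuclideanSpace.real_norm_sq_eq]
  congr 1
  rw [Finset.sum_neg_distrib, Finset.sum_div]

theorem E_int {k : ℕ} (F : (Fin k → ℝ) → ℝ) : ∫ f : E k, F f.ofLp * gw f = ∫ x : Fin k → ℝ, F x * GG x := by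
  simp_rw [gw_eq]
  exact (EuclideanSpace.volume_preserving_symm_measurableEquiv_toLp (Fin k)).integral_comp'
    (fun x : Fin k → ℝ => F x * GG x)

theorem E_integrable {k : ℕ} (F : (Fin k → ℝ) → ℝ) (h : Integrable fun x : Fin k → ℝ => F x * GG x) :
    Integrable fun f : E k => F f.ofLp * gw f := by
  simp_rw [gw_eq]
  exact (EuclideanSpace.volume_preserving_symm_measurableEquiv_toLp (Fin k)).integrable_comp_of_integrable h

theorem L_one (k : ℕ) : L k 1 = (2 * Real.pi) ^ ((k : ℝ) / 2) := by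
  have h1 : L k 1 = ∫ f : E k, gw f := by
    have h := E_int (k := k) (fun _ => 1)
    simp only [one_mul] at h
    rw [h]
    show ∫ x : Fin k → ℝ, eval x 1 * GG x = _
    simp
  have h2 := GaussianFourier.integral_rexp_neg_mul_sq_norm (V := E k) (b := 1 / 2) (by norm_num)
  rw [finrank_euclideanSpace, Fintype.card_fin] at h2
  have e : Real.pi / (1 / 2) = 2 * Real.pi := by ring
  rw [e] at h2
  rw [h1, ← h2]
  congr 1
  funext y
  rw [gw]
  congr 1
  ring

/-! ### the polynomials -/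

section poly
variable {k : ℕ} (T : Matrix (Fin k) (Fin k) ℝ) (b : Fin k → ℝ)

noncomputable def vp (i : Fin k) : MvPolynomial (Fin k) ℝ := ∑ j, C (T i j) * X j - C (b i)
noncomputable def nf (k : ℕ) : MvPolynomial (Fin k) ℝ := ∑ i, X i * X i
noncomputable def vv : MvPolynomial (Fin k) ℝ := ∑ i, vp T b i * vp T b i
noncomputable def fv : MvPolynomial (Fin k) ℝ := ∑ i, X i * vp T b i

theorem L_C (a : ℝ) : L k (C a) = a * L k 1 := by
  have : (C a : MvPolynomial (Fin k) ℝ) = a • (1 : MvPolynomial (Fin k) ℝ) := by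
    rw [smul_eq_C_mul, mul_one]
  rw [this, map_smul, smul_eq_mul]

theorem L_C_mul (a : ℝ) (p : MvPolynomial (Fin k) ℝ) : L k (C a * p) = a * L k p := by
  rw [← smul_eq_C_mul, map_smul, smul_eq_mul]

theorem pd_vp (i j : Fin k) : pderiv i (vp T b j) = C (T j i) := by
  unfold vp
  rw [map_sub, map_sum, pderiv_C, sub_zero]
  have : ∀ l, pderiv i (C (T j l) * X l : MvPolynomial (Fin k) ℝ) = if l = i then C (T j l) else 0 := by
    intro l
    rw [pderiv_C_mul, pderiv_X]
    by_cases h : l = i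
    · subst h; simp
    · simp [h]
  simp only [this]
  simp

theorem L_X_vp (i j : Fin k) : L k (X i * vp T b j) = T j i * L k 1 := by
  rw [stein, pd_vp, L_C]

theorem L_X (i : Fin k) : L k (X i) = 0 := by
  have h := stein i (1 : MvPolynomial (Fin k) ℝ)
  rw [mul_one] at h
  rw [h]
  simp

theorem L_vp (i : Fin k) : L k (vp T b i) = - b i * L k 1 := by
  unfold vp
  rw [map_sub, map_sum, L_C]
  simp only [L_C_mul, L_X, mul_zero, Finset.sum_const_zero]
  ring

theorem L_vp_vp (i j : Fin k) : L k (vp T b i * vp T b j) = (∑ l, T i l * T j l + b i * b j) * L k 1 := by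
  have h : vp T b i * vp T b j = ∑ l, C (T i l) * (X l * vp T b j) - C (b i) * vp T b j := by
    conv_lhs => rw [vp]
    rw [sub_mul, Finset.sum_mul]
    congr 1
    refine Finset.sum_congr rfl fun l _ => ?_
    ring
  rw [h, map_sub, map_sum]
  simp only [L_C_mul, L_X_vp, L_vp]
  rw [add_mul, Finset.sum_mul]
  have : ∀ l, T i l * (T j l * L k 1) = T i l * T j l * L k 1 := fun l => by ring
  simp only [this]
  ring

theorem L_vv : L k (vv T b) = ((T * Tᵀ).trace + b ⬝ᵥ b) * L k 1 := by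
  unfold vv
  rw [map_sum]
  simp only [L_vp_vp]
  rw [← Finset.sum_mul, Finset.sum_add_distrib]
  congr 1

theorem L_fv : L k (fv T b) = T.trace * L k 1 := by
  unfold fv
  rw [map_sum]
  simp only [L_X_vp]
  rw [← Finset.sum_mul]
  rfl

theorem L_nf : L k (nf k) = k * L k 1 := by
  unfold nf
  rw [map_sum]
  have : ∀ i : Fin k, L k (X i * X i) = L k 1 := by
    intro i
    rw [stein, pderiv_X_self]
  simp [this]

theorem pd_vv (i : Fin k) : pderiv i (vv T b) = ∑ j, C (2 * T j i) * vp T b j := by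
  unfold vv
  rw [map_sum]
  refine Finset.sum_congr rfl fun j _ => ?_
  rw [pderiv_mul, pd_vp, C_mul]
  have : (C (2 : ℝ) : MvPolynomial (Fin k) ℝ) = 2 := map_ofNat C 2
  rw [this]
  ring

theorem L_nf_vv : L k (nf k * vv T b) = k * L k (vv T b) + 2 * (T * Tᵀ).trace * L k 1 := by
  have h : nf k * vv T b = ∑ i, X i * (X i * vv T b) := by
    unfold nf
    rw [Finset.sum_mul]
    refine Finset.sum_congr rfl fun i _ => ?_
    ring
  rw [h, map_sum]
  have h2 : ∀ i : Fin k, L k (X i * (X i * vv T b)) = L k (vv T b) + ∑ j, 2 * (T j i * T j i) * L k 1 := by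
    intro i
    rw [stein, pderiv_mul, pderiv_X_self, one_mul, map_add, pd_vv, Finset.mul_sum, map_sum]
    congr 1
    refine Finset.sum_congr rfl fun j _ => ?_
    have : (X i : MvPolynomial (Fin k) ℝ) * (C (2 * T j i) * vp T b j) =
      C (2 * T j i) * (X i * vp T b j) := by ring
    rw [this, L_C_mul, L_X_vp]
    ring
  simp only [h2]
  rw [Finset.sum_add_distrib, Finset.sum_const, Finset.card_univ, Fintype.card_fin, nsmul_eq_mul]
  congr 1
  rw [Finset.sum_comm]
  simp only [← Finset.sum_mul, ← Finset.mul_sum]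
  rfl

theorem pd_fv (i : Fin k) : pderiv i (fv T b) = vp T b i + ∑ j, C (T j i) * X j := by
  unfold fv
  rw [map_sum]
  have : ∀ j, pderiv i (X j * vp T b j) = (if j = i then vp T b j else 0) + C (T j i) * X j := by
    intro j
    rw [pderiv_mul, pd_vp, pderiv_X]
    by_cases h : j = i
    · subst h; simp [mul_comm]
    · simp [h, mul_comm]
  simp only [this]
  rw [Finset.sum_add_distrib]
  simp

theorem L_fv_fv : L k (fv T b * fv T b) =
    (T.trace ^ 2 + (T * T).trace) * L k 1 + L k (vv T b) := by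
  have h : fv T b * fv T b = ∑ i, X i * (vp T b i * fv T b) := by
    conv_lhs => enter [1]; rw [fv]
    rw [Finset.sum_mul]
    refine Finset.sum_congr rfl fun i _ => ?_
    ring
  rw [h, map_sum]
  have h2 : ∀ i : Fin k, L k (X i * (vp T b i * fv T b)) = T i i * (T.trace * L k 1) +
      (L k (vp T b i * vp T b i) + ∑ j, T j i * T i j * L k 1) := by
    intro i
    rw [stein, pderiv_mul, pd_vp, map_add, L_C_mul, L_fv, pd_fv, mul_add, map_add, Finset.mul_sum, map_sum]
    congr 2
    refine Finset.sum_congr rfl fun j _ => ?_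
    have : vp T b i * (C (T j i) * X j) = C (T j i) * (X j * vp T b i) := by ring
    rw [this, L_C_mul, L_X_vp]
    ring
  simp only [h2]
  rw [Finset.sum_add_distrib, Finset.sum_add_distrib, ← Finset.sum_mul]
  have h3 : L k (vv T b) = ∑ i, L k (vp T b i * vp T b i) := by
    unfold vv
    rw [map_sum]
  rw [h3]
  have h4 : ∑ i, T i i = T.trace := rfl
  have h5 : ∑ i, ∑ j, T j i * T i j * L k 1 = (T * T).trace * L k 1 := by
    simp only [← Finset.sum_mul]
    congr 1
    rw [Finset.sum_comm]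
    rfl
  rw [h4, h5]
  ring

/-- the polynomial whose values are the squared integrand -/
noncomputable def JP (D r : ℝ) (n : ℕ) : MvPolynomial (Fin k) ℝ :=
  C (D ^ 2 * (r ^ 2) ^ n) * (C (r ^ 2) + nf k) +
    C ((r ^ 2) ^ (n - 1)) * ((C (r ^ 2) + nf k) * vv T b - fv T b * fv T b)

theorem L_JP (D r : ℝ) (n : ℕ) : L k (JP T b D r n) = L k 1 * (
    D ^ 2 * (r ^ 2) ^ n * (r ^ 2 + k) + (r ^ 2) ^ (n - 1) *
      ((r ^ 2 + k - 1) * ((T * Tᵀ).trace + b ⬝ᵥ b) + 2 * (T * Tᵀ).trace - T.trace ^ 2 - (T * T).trace)) := by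
  unfold JP
  rw [map_add, L_C_mul, L_C_mul, map_add, L_C, L_nf, map_sub, add_mul, map_add, L_C_mul, L_nf_vv, L_fv_fv, L_vv]
  ring

theorem eval_JP (D r : ℝ) (n : ℕ) (f : Fin k → ℝ) : eval f (JP T b D r n) =
    D ^ 2 * ((r ^ 2) ^ n * (r ^ 2 + f ⬝ᵥ f)) +
      (r ^ 2) ^ (n - 1) * ((r ^ 2 + f ⬝ᵥ f) * ((T *ᵥ f - b) ⬝ᵥ (T *ᵥ f - b)) - (f ⬝ᵥ (T *ᵥ f - b)) ^ 2) := by
  have e1 : eval f (nf k) = f ⬝ᵥ f := by
    simp [nf, dotProduct]
  have e2 : ∀ i, eval f (vp T b i) = (T *ᵥ f - b) i := by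
    intro i
    simp [vp, Matrix.mulVec, dotProduct]
  have e3 : eval f (vv T b) = (T *ᵥ f - b) ⬝ᵥ (T *ᵥ f - b) := by
    unfold vv
    rw [map_sum]
    simp only [map_mul, e2]
    rfl
  have e4 : eval f (fv T b) = f ⬝ᵥ (T *ᵥ f - b) := by
    unfold fv
    rw [map_sum]
    simp only [map_mul, e2, eval_X]
    rfl
  unfold JP
  simp only [map_add, map_mul, map_sub, eval_C, e1, e3, e4]
  ring

end poly

end Pool.Agent.W356.ST
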