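import Mathlib
import Pool.Agent.W546.ST.Defs
import Pool.Agent.W356.ST.Base
import Pool.Agent.W356.ST.PAJ
import Pool.Agent.W356.ST.GK
import Pool.Agent.W356.ST.GQa
import Pool.Agent.W356.ST.GQb

set_option autoImplicit false
open Matrix MeasureTheory Set Metric Filter Topology
open scoped ENNReal Nat

namespace Pool.Agent.W356.ST
open Pool.Agent.Helper82.OS Pool.Agent.W546.ST

variable {n : ℕ} (P : PA n)

attribute [local irreducible] Pool.Agent.W546.ST.PA.J2

theorem rad_int (m : ℕ) : ∫ r in Ioi (0 : ℝ), r ^ m * gt r = R m := by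
  have h := rad m
  have hnn : 0 ≤ᵐ[volume.restrict (Ioi (0 : ℝ))] fun r : ℝ => r ^ m * gt r := by
    rw [Filter.EventuallyLE, ae_restrict_iff' measurableSet_Ioi]
    refine Filter.Eventually.of_forall fun r hr => ?_
    have hr' : (0 : ℝ) < r := hr
    exact mul_nonneg (pow_nonneg hr'.le _) (Real.exp_nonneg _)
  rw [← ofReal_integral_eq_lintegral_ofReal (int1 m).integrableOn hnn] at h
  have h0 : 0 ≤ ∫ r in Ioi (0 : ℝ), r ^ m * gt r := integral_nonneg_of_ae hnn
  exact (ENNReal.ofReal_eq_ofReal_iff h0 (R_pos m).le).mp h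

/-- coefficients -/
noncomputable def al (a : ℝ) : ℝ := (P.Y a).det ^ 2 + P.ze a ⬝ᵥ P.ze a
noncomputable def be (a : ℝ) : ℝ :=
  ((n : ℝ) + 1) * (P.Y a).det ^ 2 + (P.T a * (P.T a)ᵀ).trace + n * (P.ze a ⬝ᵥ P.ze a)
noncomputable def ga (a : ℝ) : ℝ :=
  ((n : ℝ) + 2) * (P.T a * (P.T a)ᵀ).trace - (P.T a * P.T a).trace - (P.T a).trace ^ 2

theorem I_eq (hn : 1 ≤ n) (a : ℝ) :
    al P a * R (n + 3) + be P a * R (n + 1) + ga P a * R (n - 1) = R (n + 1) * P.I a := by
  obtain ⟨k, rfl⟩ : ∃ k, n = k + 1 := ⟨n - 1, by omega⟩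
  have h1 : R (k + 1 + 3) = (((k + 2 : ℕ) : ℝ) + 1) * R (k + 1 + 1) := R_succ (k + 2)
  have h2 : R (k + 1 + 1) = ((k : ℝ) + 1) * R k := R_succ k
  have h3 : k + 1 - 1 = k := rfl
  rw [h3, h1, h2]
  unfold PA.I al be ga
  have hk : ((k : ℝ) + 1) ≠ 0 := by positivity
  push_cast
  field_simp
  ring

theorem gauss_J2 (hn : 1 ≤ n) (r a : ℝ) (hr : 0 < r) :
    Integrable (fun f : E (n + 1) => P.J2 (r * Real.cos a) (r * Real.sin a) f.ofLp * gw f) ∧
    r * (∫ f : E (n + 1), P.J2 (r * Real.cos a) (r * Real.sin a) f.ofLp * gw f) / r ^ n =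
      L (n + 1) 1 * (al P a * r ^ (n + 3) + be P a * r ^ (n + 1) + ga P a * r ^ (n - 1)) := by
  have h1 : ∀ f : Fin (n + 1) → ℝ, P.J2 (r * Real.cos a) (r * Real.sin a) f =
      MvPolynomial.eval f (JP (P.T a) (r • P.ze a) (P.Y a).det r n) := by
    intro f
    rw [eval_JP, J2_polar P hn r a hr f]
  constructor
  · refine E_integrable (k := n + 1) (fun f => P.J2 (r * Real.cos a) (r * Real.sin a) f) ?_
    simp_rw [h1]
    exact poly_int _
  · rw [E_int (k := n + 1) (fun f => P.J2 (r * Real.cos a) (r * Real.sin a) f)]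
    simp_rw [h1]
    have h2 : ∫ x : Fin (n + 1) → ℝ, MvPolynomial.eval x (JP (P.T a) (r • P.ze a) (P.Y a).det r n) * GG x =
      L (n + 1) (JP (P.T a) (r • P.ze a) (P.Y a).det r n) := rfl
    rw [h2, L_JP, div_eq_iff (by positivity)]
    obtain ⟨k, rfl⟩ : ∃ k, n = k + 1 := ⟨n - 1, by omega⟩
    rw [Nat.add_sub_cancel, smul_dotProduct, dotProduct_smul]
    unfold al be ga
    simp only [smul_eq_mul]
    push_cast
    ring

theorem Y_cont : Continuous P.Y := by
  unfold PA.Y
  fun_prop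

theorem Yd_cont : Continuous P.Yd := by
  unfold PA.Yd
  fun_prop

theorem T_cont : Continuous P.T := (Y_cont P).matrix_adjugate.matrix_mul (Yd_cont P)

theorem ze_cont : Continuous P.ze := by
  unfold PA.ze
  exact ((Y_cont P).matrix_adjugate.matrix_mulVec continuous_const).const_smul P.s

theorem I_cont : Continuous P.I := by
  have h1 := (Y_cont P).matrix_det
  have h2 := T_cont P
  have h3 := ze_cont P
  have h4 := (h2.matrix_mul h2.matrix_transpose).matrix_trace
  have h5 := (h2.matrix_mul h2).matrix_trace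
  have h6 := h2.matrix_trace
  have h7 := h3.dotProduct h3
  unfold PA.I
  fun_prop

theorem I_per (hn : Odd n) : Function.Periodic P.I Real.pi := by
  intro a
  have e1 : P.Y (a + Real.pi) = -(P.Y a) := by
    unfold PA.Y
    rw [Real.cos_add_pi, Real.sin_add_pi]
    simp only [neg_smul, neg_add]
  have e2 : P.Yd (a + Real.pi) = -(P.Yd a) := by
    unfold PA.Yd
    rw [Real.cos_add_pi, Real.sin_add_pi]
    simp only [neg_smul, neg_add, neg_neg]
  have hN : Even (n + 1) := hn.add_one
  have e3 : (-(P.Y a)).adjugate = -(P.Y a).adjugate := by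
    rw [← neg_one_smul ℝ (P.Y a), Matrix.adjugate_smul, Fintype.card_fin, Nat.add_sub_cancel, hn.neg_one_pow,
      neg_one_smul]
  have e4 : (-(P.Y a)).det = (P.Y a).det := by
    rw [Matrix.det_neg, Fintype.card_fin, hN.neg_one_pow, one_mul]
  have e5 : P.T (a + Real.pi) = P.T a := by
    unfold PA.T
    rw [e1, e2, e3, Matrix.neg_mul, Matrix.mul_neg, neg_neg]
  have e6 : P.ze (a + Real.pi) = -(P.ze a) := by
    unfold PA.ze
    rw [e1, e3, Matrix.neg_mulVec, smul_neg]
  unfold PA.I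
  rw [e5, e6, e1, e4]
  simp only [dotProduct_neg, neg_dotProduct, neg_neg]

theorem GQt : St_GQ := by
  intro n hn hn3 P l h0 h1
  have hn1 : 1 ≤ n := by omega
  have hC0 : 0 < L (n + 1) 1 := by
    rw [L_one]
    have := Real.pi_pos
    positivity
  have hC : L (n + 1) 1 = (2 * Real.pi) ^ ((n + 1) / 2) := by
    rw [L_one, even_pow n hn]
  have hsq : ∀ a, 0 < Real.sqrt (hh l a ^ n) := fun a =>
    Real.sqrt_pos.mpr (pow_pos (hh_pos l a h0 h1) n)
  -- nonnegativity of the radial function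
  have hS : ∀ a r : ℝ, 0 < r → 0 ≤ al P a * r ^ (n + 3) + be P a * r ^ (n + 1) + ga P a * r ^ (n - 1) := by
    intro a r hr
    have h2 := (gauss_J2 P hn1 r a hr).2
    have h3 : 0 ≤ ∫ f : E (n + 1), P.J2 (r * Real.cos a) (r * Real.sin a) f.ofLp * gw f :=
      integral_nonneg fun f => mul_nonneg (J2_nonneg P _ _ _) (Real.exp_nonneg _)
    have h4 : 0 ≤ L (n + 1) 1 * (al P a * r ^ (n + 3) + be P a * r ^ (n + 1) + ga P a * r ^ (n - 1)) := by
      rw [← h2]
      positivity
    exact nonneg_of_mul_nonneg_right h4 hC0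
  have hSi : ∀ a, IntegrableOn (fun r : ℝ => al P a * (r ^ (n + 3) * gt r) + be P a * (r ^ (n + 1) * gt r) +
      ga P a * (r ^ (n - 1) * gt r)) (Ioi 0) := fun a =>
    ((((int1 (n + 3)).const_mul _).add ((int1 (n + 1)).const_mul _)).add
      ((int1 (n - 1)).const_mul _)).integrableOn
  have hSv : ∀ a, ∫ r in Ioi (0 : ℝ), (al P a * (r ^ (n + 3) * gt r) + be P a * (r ^ (n + 1) * gt r) +
      ga P a * (r ^ (n - 1) * gt r)) = R (n + 1) * P.I a := by
    intro a
    rw [← I_eq P hn1 a, ← rad_int (n + 3), ← rad_int (n + 1), ← rad_int (n - 1)]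
    rw [integral_add, integral_add, integral_const_mul, integral_const_mul, integral_const_mul]
    · exact ((int1 (n + 3)).const_mul _).integrableOn
    · exact ((int1 (n + 1)).const_mul _).integrableOn
    · exact (((int1 (n + 3)).const_mul _).add ((int1 (n + 1)).const_mul _)).integrableOn
    · exact ((int1 (n - 1)).const_mul _).integrableOn
  have hI0 : ∀ a, 0 ≤ P.I a := by
    intro a
    have h2 : 0 ≤ R (n + 1) * P.I a := by
      rw [← hSv a]
      refine setIntegral_nonneg measurableSet_Ioi fun r hr => ?_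
      have hr' : (0 : ℝ) < r := hr
      have h3 := mul_nonneg (hS a r hr') (Real.exp_nonneg (-(r ^ 2 / 2)))
      have h4 : al P a * (r ^ (n + 3) * gt r) + be P a * (r ^ (n + 1) * gt r) + ga P a * (r ^ (n - 1) * gt r) =
        (al P a * r ^ (n + 3) + be P a * r ^ (n + 1) + ga P a * r ^ (n - 1)) * Real.exp (-(r ^ 2 / 2)) := by
        unfold gt
        ring
      rw [h4]
      exact h3
    exact nonneg_of_mul_nonneg_right h2 (R_pos _)
  refine le_of_eq ?_
  unfold PA.GQ
  rw [polar2 (fun y t => ∫⁻ f : E (n + 1), ENNReal.ofReal (P.J2 y t f.ofLp /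
    Real.sqrt ((l * y ^ 2 + (1 - l) * t ^ 2) ^ n) * (gt y * gt t * gw f)))]
  · have hr : ∀ a, ∫⁻ r in Ioi (0 : ℝ), ENNReal.ofReal r *
        ∫⁻ f : E (n + 1), ENNReal.ofReal (P.J2 (r * Real.cos a) (r * Real.sin a) f.ofLp /
          Real.sqrt ((l * (r * Real.cos a) ^ 2 + (1 - l) * (r * Real.sin a) ^ 2) ^ n) *
          (gt (r * Real.cos a) * gt (r * Real.sin a) * gw f)) =
        ENNReal.ofReal ((L (n + 1) 1 * R (n + 1)) * (P.I a / Real.sqrt (hh l a ^ n))) := by
      intro a
      have e1 : (L (n + 1) 1 * R (n + 1)) * (P.I a / Real.sqrt (hh l a ^ n)) =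
          (L (n + 1) 1 / Real.sqrt (hh l a ^ n)) * (R (n + 1) * P.I a) := by ring
      have hd : 0 ≤ L (n + 1) 1 / Real.sqrt (hh l a ^ n) := div_nonneg hC0.le (hsq a).le
      rw [e1, ENNReal.ofReal_mul hd, ← hSv a, ofReal_integral_eq_lintegral_ofReal (hSi a) ?_,
        ← lintegral_const_mul' _ _ ENNReal.ofReal_ne_top]
      · refine setLIntegral_congr_fun measurableSet_Ioi fun r hr => ?_
        have hr' : (0 : ℝ) < r := hr
        have hg := gauss_J2 P hn1 r a hr'
        have e2 : ∀ f : E (n + 1), P.J2 (r * Real.cos a) (r * Real.sin a) f.ofLp /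
            Real.sqrt ((l * (r * Real.cos a) ^ 2 + (1 - l) * (r * Real.sin a) ^ 2) ^ n) *
            (gt (r * Real.cos a) * gt (r * Real.sin a) * gw f) =
            (gt r / (r ^ n * Real.sqrt (hh l a ^ n))) *
              (P.J2 (r * Real.cos a) (r * Real.sin a) f.ofLp * gw f) := by
          intro f
          rw [gt_polar, sqrt_kap n l a r hr']
          ring
        simp only [e2]
        have hc0 : 0 ≤ gt r / (r ^ n * Real.sqrt (hh l a ^ n)) :=
          div_nonneg (Real.exp_nonneg _) (mul_nonneg (pow_nonneg hr'.le _) (hsq a).le)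
        rw [← ofReal_integral_eq_lintegral_ofReal (hg.1.const_mul _)
          (Filter.Eventually.of_forall fun f => mul_nonneg hc0 (mul_nonneg (J2_nonneg P _ _ _) (Real.exp_nonneg _))),
          integral_const_mul, ← ENNReal.ofReal_mul hr'.le, ← ENNReal.ofReal_mul hd]
        congr 1
        have e3 : L (n + 1) 1 / Real.sqrt (hh l a ^ n) * (al P a * (r ^ (n + 3) * gt r) +
            be P a * (r ^ (n + 1) * gt r) + ga P a * (r ^ (n - 1) * gt r)) =
            gt r / Real.sqrt (hh l a ^ n) * (L (n + 1) 1 * (al P a * r ^ (n + 3) + be P a * r ^ (n + 1) +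
              ga P a * r ^ (n - 1))) := by ring
        rw [e3, ← hg.2]
        field_simp
      · rw [Filter.EventuallyLE, ae_restrict_iff' measurableSet_Ioi]
        refine Filter.Eventually.of_forall fun r hr => ?_
        have hr' : (0 : ℝ) < r := hr
        have h3 := mul_nonneg (hS a r hr') (Real.exp_nonneg (-(r ^ 2 / 2)))
        have h4 : al P a * (r ^ (n + 3) * gt r) + be P a * (r ^ (n + 1) * gt r) + ga P a * (r ^ (n - 1) * gt r) =
          (al P a * r ^ (n + 3) + be P a * r ^ (n + 1) + ga P a * r ^ (n - 1)) * Real.exp (-(r ^ 2 / 2)) := by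
          unfold gt
          ring
        show 0 ≤ al P a * (r ^ (n + 3) * gt r) + be P a * (r ^ (n + 1) * gt r) + ga P a * (r ^ (n - 1) * gt r)
        rw [h4]
        exact h3
    simp_rw [hr]
    rw [circle_mn (fun a => P.I a / Real.sqrt (hh l a ^ n))]
    · rw [hC, R_odd_succ n hn]
      rfl
    · refine (I_cont P).div₀ ?_ (fun a => (hsq a).ne')
      unfold hh
      fun_prop
    · intro a
      simp only
      rw [I_per P hn a, hh_per]
    · intro a
      exact div_nonneg (hI0 a) (hsq a).le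
    · exact mul_nonneg hC0.le (R_pos _).le
  · have hm : Measurable (fun q : (ℝ × ℝ) × E (n + 1) => ENNReal.ofReal (P.J2 q.1.1 q.1.2 q.2.ofLp /
        Real.sqrt ((l * q.1.1 ^ 2 + (1 - l) * q.1.2 ^ 2) ^ n) * (gt q.1.1 * gt q.1.2 * gw q.2))) := by
      refine Measurable.ennreal_ofReal ?_
      refine (Measurable.div ?_ ?_).mul ?_
      · have h5 : Continuous fun q : (ℝ × ℝ) × E (n + 1) => (q.1.1, q.1.2, q.2.ofLp) := by fun_prop
        exact ((J2_cont P).comp h5).measurable
      · fun_prop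
      · unfold gt gw
        fun_prop
    exact hm.lintegral_prod_right'

end Pool.Agent.W356.ST
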